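import Pool.Agent.V11101.RM4

/-!
# Radial mean bodies of order `p ∈ (-1,0)` embed in `L^{-p}` (Q1)
-/

open Pool.Agent.V11101.RM

theorem Pool.Agent.Results.MP_fd6526_gt.RadialMeanEmbeds.result (n : ℕ) (hn : 1 ≤ n) (p : ℝ)
    (hp : -1 < p) (hp0 : p < 0) (K : Set (EuclideanSpace ℝ (Fin n))) (hK : IsConvexBody K) :
    (∃ M, IsRadialMeanBody K M p) ∧ ∀ M, IsRadialMeanBody K M p → EmbedsLq M (-p) := by
  have : NeZero n := ⟨by omega⟩
  exact ⟨exists_radialMeanBody hK hp hp0, fun M hM => embeds hK hp hp0 hM⟩
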